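import Pool.Agent.H99.PT.Code

/-!
MP_912b3a_nt: the number of primitive Pythagorean triangles of area A.
-/

namespace Pool.Agent.H99.PT

open Finset

theorem gen_finite (A : ℕ) : {v : ℕ × ℕ | Gen A v}.Finite := by
  apply Set.Finite.subset (((range (A + 1)) ×ˢ (range (A + 1)) : Finset (ℕ × ℕ)).finite_toSet)
  intro v hv
  have h1 := prod_parts hv
  have h0 := area_pos hv
  have h2 : v.1 ∣ A := by
    rw [← h1]
    exact ⟨part v 1 * part v 2 * part v 3, by simp [part]; ring⟩
  have h3 := Nat.le_of_dvd h0 h2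
  have h4 := hv.2.1
  rw [Finset.mem_coe, Finset.mem_product, Finset.mem_range, Finset.mem_range]
  omega

theorem main (A g : ℕ) (ε : ℝ) (hε : 0 < ε) (hg : g ∣ A) (hc : Nat.Coprime g (A / g))
    (hgA : (A : ℝ) ^ (1 / 3 + ε) ≤ g) :
    ({v : ℕ × ℕ | Gen A v}.ncard : ℝ) ≤ 7 / ε ^ 2 * 4 ^ g.primeFactors.card := by
  classical
  rcases lt_or_ge A 2 with hA | hA
  · have h1 : {v : ℕ × ℕ | Gen A v} = ∅ := by
      rw [Set.eq_empty_iff_forall_notMem]
      intro v hv
      have hv' : Gen A v := hv
      have h0 := area_pos hv'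
      have h2 : v.1 ∣ A := by
        rw [← prod_parts hv']
        exact ⟨part v 1 * part v 2 * part v 3, by simp [part]; ring⟩
      have h3 := Nat.le_of_dvd h0 h2
      have h4 := hv'.1
      have h5 := hv'.2.1
      omega
    rw [h1, Set.ncard_empty]
    push_cast
    positivity
  have hA0 : 0 < A := by omega
  have hA1 : (1 : ℝ) < A := by exact_mod_cast hA
  have hlA : 0 < Real.log A := Real.log_pos hA1
  have hg0 : 0 < g := Nat.pos_of_dvd_of_pos hg hA0
  have hgA' : (1 / 3 + ε) * Real.log A ≤ Real.log g := by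
    have := Real.log_le_log (by positivity) hgA
    rwa [Real.log_rpow (by positivity)] at this
  have hε1 : ε ≤ 2 / 3 := by
    have h1 : Real.log g ≤ Real.log A :=
      Real.log_le_log (by exact_mod_cast hg0) (by exact_mod_cast Nat.le_of_dvd hA0 hg)
    have h2 : (1 / 3 + ε) * Real.log A ≤ 1 * Real.log A := by linarith
    have := le_of_mul_le_mul_right h2 hlA
    linarith
  set V : Finset (ℕ × ℕ) := (gen_finite A).toFinset with hV
  have hVm : ∀ v, v ∈ V ↔ Gen A v := by
    intro v
    rw [hV, Set.Finite.mem_toFinset]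
    rfl
  rw [Set.ncard_eq_toFinset_card _ (gen_finite A), ← hV]
  set η : ℝ := ε / 4 * Real.log A with hη
  have hη0 : 0 < η := by positivity
  let key : ℕ × ℕ → Bool × ℕ × (g.primeFactors → Fin 4) := fun v =>
    (decide (2 * v.2 ≤ v.1), ⌊Real.log (small v) / η⌋₊, fun p => letter v p)
  have hlog0 : ∀ v, 0 ≤ Real.log (small v) / η := by
    intro v
    apply div_nonneg _ hη0.le
    exact Real.log_natCast_nonneg _
  -- number of keys
  have himg : (V.image key).card ≤ 2 * ((⌊1 / ε⌋₊ + 1) * 4 ^ g.primeFactors.card) := by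
    have h1 : V.image key ⊆ (Finset.univ : Finset Bool) ×ˢ
        ((range (⌊1 / ε⌋₊ + 1)) ×ˢ (Finset.univ : Finset (g.primeFactors → Fin 4))) := by
      intro a ha
      rw [Finset.mem_image] at ha
      obtain ⟨v, hv, rfl⟩ := ha
      rw [Finset.mem_product, Finset.mem_product]
      refine ⟨Finset.mem_univ _, ?_, Finset.mem_univ _⟩
      rw [Finset.mem_range, Nat.lt_succ_iff]
      apply Nat.floor_mono
      have hv' := (hVm v).mp hv
      have hs0 : (0 : ℝ) < small v := by exact_mod_cast small_pos hv'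
      have h2 : ((small v : ℝ)) ^ 4 ≤ A := by exact_mod_cast small_pow_four hv'
      have h3 := Real.log_le_log (by positivity) h2
      rw [Real.log_pow] at h3
      push_cast at h3
      rw [div_le_div_iff₀ hη0 hε, hη]
      nlinarith
    have h4 := Finset.card_le_card h1
    rw [Finset.card_product, Finset.card_product, Finset.card_univ, Fintype.card_bool,
      Finset.card_range, Finset.card_univ, Fintype.card_fun, Fintype.card_fin,
      Fintype.card_coe] at h4
    exact h4
  -- the fibres
  have hfib : ∀ a ∈ V.image key, (V.filter (fun v => key v = a)).card ≤ ⌊2 / ε⌋₊ := by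
    intro a _
    apply Nat.le_floor
    apply plotkin hA hg hc ε hε hgA'
    · intro v hv
      rw [Finset.mem_filter] at hv
      exact (hVm v).mp hv.1
    · intro v hv w hw
      rw [Finset.mem_filter] at hv hw
      have h1 : key v = key w := hv.2.trans hw.2.symm
      have h2 : decide (2 * v.2 ≤ v.1) = decide (2 * w.2 ≤ w.1) := congrArg Prod.fst h1
      exact decide_eq_decide.mp h2
    · intro v hv w hw
      rw [Finset.mem_filter] at hv hw
      have h1 : key v = key w := hv.2.trans hw.2.symm
      have h2 : ⌊Real.log (small v) / η⌋₊ = ⌊Real.log (small w) / η⌋₊ :=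
        congrArg (fun x => x.2.1) h1
      have h3 := Nat.lt_floor_add_one (Real.log (small v) / η)
      have h4 := Nat.floor_le (hlog0 w)
      rw [h2] at h3
      have h5 : Real.log (small v) / η ≤ Real.log (small w) / η + 1 := by linarith
      rw [div_le_iff₀ hη0, add_mul, div_mul_cancel₀ _ hη0.ne', one_mul] at h5
      exact h5
    · intro v hv w hw p hp
      rw [Finset.mem_filter] at hv hw
      have h1 : key v = key w := hv.2.trans hw.2.symm
      have h2 : (fun p : g.primeFactors => letter v p) = fun p : g.primeFactors => letter w p :=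
        congrArg (fun x => x.2.2) h1
      exact congrFun h2 ⟨p, hp⟩
  have h1 := Finset.card_le_mul_card_image V ⌊2 / ε⌋₊ hfib
  have h2 : (V.card : ℝ) ≤ (⌊2 / ε⌋₊ : ℝ) * ((V.image key).card : ℝ) := by exact_mod_cast h1
  have h3 : ((V.image key).card : ℝ) ≤ 2 * ((1 / ε + 1) * 4 ^ g.primeFactors.card) := by
    have h4 : ((V.image key).card : ℝ) ≤
        ((2 * ((⌊1 / ε⌋₊ + 1) * 4 ^ g.primeFactors.card) : ℕ) : ℝ) := by exact_mod_cast himg
    push_cast at h4
    refine h4.trans ?_
    have h5 := Nat.floor_le (show 0 ≤ 1 / ε by positivity)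
    gcongr
  have h6 := Nat.floor_le (show 0 ≤ 2 / ε by positivity)
  calc (V.card : ℝ) ≤ (⌊2 / ε⌋₊ : ℝ) * ((V.image key).card : ℝ) := h2
    _ ≤ (2 / ε) * (2 * ((1 / ε + 1) * 4 ^ g.primeFactors.card)) :=
        mul_le_mul h6 h3 (by positivity) (by positivity)
    _ = (4 * (1 + ε)) / ε ^ 2 * 4 ^ g.primeFactors.card := by
        field_simp
        ring
    _ ≤ 7 / ε ^ 2 * 4 ^ g.primeFactors.card := by
        gcongr
        linarith

end Pool.Agent.H99.PT
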