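import Pool.Agent.H99.PT.Size

/-!
MP_912b3a_nt: the words of the triangles form a code; Plotkin's bound.
-/

namespace Pool.Agent.H99.PT

open Finset

/-- the weight of a prime -/
noncomputable def wt (A p : ℕ) : ℝ := (A.factorization p : ℝ) * Real.log p

theorem wt_nonneg (A p : ℕ) : 0 ≤ wt A p := by
  unfold wt
  positivity

theorem sum_wt {A : ℕ} (hA : 0 < A) : ∑ p ∈ A.primeFactors, wt A p = Real.log A := by
  have h1 : ∏ p ∈ A.primeFactors, p ^ A.factorization p = A :=
    Nat.prod_factorization_pow_eq_self hA.ne'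
  have h2 : (A : ℝ) = ∏ p ∈ A.primeFactors, ((p : ℝ) ^ A.factorization p) := by
    exact_mod_cast h1.symm
  rw [h2, Real.log_prod]
  · apply Finset.sum_congr rfl
    intro p _
    rw [Real.log_pow]
    rfl
  · intro p hp
    have := (Nat.prime_of_mem_primeFactors hp).pos
    positivity

theorem sum_wt_unitary {A g : ℕ} (hA : 0 < A) (hg : g ∣ A) (hc : Nat.Coprime g (A / g)) :
    ∑ p ∈ g.primeFactors, wt A p = Real.log g := by
  have hg0 : 0 < g := Nat.pos_of_dvd_of_pos hg hA
  rw [← sum_wt hg0]
  apply Finset.sum_congr rfl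
  intro p hp
  have h1 : A = g * (A / g) := (Nat.mul_div_cancel' hg).symm
  have h2 : A / g ≠ 0 := by
    intro h
    rw [h, mul_zero] at h1
    omega
  have h3 : (A / g).factorization p = 0 := by
    apply Nat.factorization_eq_zero_of_not_dvd
    intro h
    have h4 := (Nat.prime_of_mem_primeFactors hp)
    have h5 := Nat.dvd_gcd (Nat.dvd_of_mem_primeFactors hp) h
    rw [hc] at h5
    exact h4.one_lt.ne' (Nat.dvd_one.mp h5)
  unfold wt
  have h6 : A.factorization p = g.factorization p := by
    conv_lhs => rw [h1]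
    rw [Nat.factorization_mul hg0.ne' h2, Finsupp.add_apply, h3, add_zero]
  rw [h6]

/-- two different triangles: the weight of the agreement -/
theorem agree_le {A : ℕ} {v w : ℕ × ℕ} (hv : Gen A v) (hw : Gen A w) (hne : v ≠ w) :
    ∑ p ∈ A.primeFactors.filter (fun p => letter v p = letter w p), wt A p ≤
      Real.log |((det v w : ℤ) : ℝ)| := by
  have hd := det_ne_zero hv hw hne
  set S := A.primeFactors.filter (fun p => letter v p = letter w p) with hS
  have hpr : ∀ p ∈ S, p.Prime ∧ p ∣ A := by
    intro p hp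
    rw [hS, Finset.mem_filter] at hp
    exact ⟨Nat.prime_of_mem_primeFactors hp.1, Nat.dvd_of_mem_primeFactors hp.1⟩
  have h1 : (∏ p ∈ S, ((p ^ A.factorization p : ℕ) : ℤ)) ∣ det v w := by
    apply Finset.prod_dvd_of_coprime
    · intro p hp q hq hpq
      have := (Nat.coprime_primes (hpr p hp).1 (hpr q hq).1).mpr hpq
      exact Nat.isCoprime_iff_coprime.mpr (Nat.Coprime.pow _ _ this)
    · intro p hp
      have h2 := letter_pow hv (hpr p hp).1 (hpr p hp).2
      have h3 := letter_pow hw (hpr p hp).1 (hpr p hp).2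
      rw [hS, Finset.mem_filter] at hp
      rw [← hp.2] at h3
      exact dvd_det hv hw h2 h3
  have h4 : (∏ p ∈ S, ((p ^ A.factorization p : ℕ) : ℤ)) ≤ |det v w| := by
    apply Int.le_of_dvd (abs_pos.mpr hd)
    exact (dvd_abs _ _).mpr h1
  have h5 : (∏ p ∈ S, ((p : ℝ) ^ A.factorization p)) ≤ |((det v w : ℤ) : ℝ)| := by
    have : (((∏ p ∈ S, ((p ^ A.factorization p : ℕ) : ℤ)) : ℤ) : ℝ) ≤ ((|det v w| : ℤ) : ℝ) := by
      exact_mod_cast h4
    push_cast at this
    exact this
  have h6 : ∑ p ∈ S, wt A p = Real.log (∏ p ∈ S, ((p : ℝ) ^ A.factorization p)) := by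
    rw [Real.log_prod]
    · apply Finset.sum_congr rfl
      intro p _
      rw [Real.log_pow]
      rfl
    · intro p hp
      have := (hpr p hp).1.pos
      positivity
  rw [h6]
  apply Real.log_le_log _ h5
  apply Finset.prod_pos
  intro p hp
  have := (hpr p hp).1.pos
  positivity

/-- number of ordered pairs with equal letters -/
theorem pairs_ge (V : Finset (ℕ × ℕ)) (f : ℕ × ℕ → Fin 4) :
    (V.card : ℝ) ^ 2 / 4 ≤ ∑ v ∈ V, ∑ w ∈ V, (if f v = f w then (1 : ℝ) else 0) := by
  have h1 : ∑ v ∈ V, ∑ w ∈ V, (if f v = f w then (1 : ℝ) else 0) =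
      ∑ i : Fin 4, ((V.filter (fun v => f v = i)).card : ℝ) ^ 2 := by
    have h2 : ∀ v ∈ V, ∑ w ∈ V, (if f v = f w then (1 : ℝ) else 0) =
        ∑ i : Fin 4, (if f v = i then ((V.filter (fun w => f w = i)).card : ℝ) else 0) := by
      intro v _
      rw [Finset.sum_ite_eq]
      simp only [Finset.mem_univ, if_true]
      rw [Finset.card_filter]
      push_cast
      apply Finset.sum_congr rfl
      intro w _
      by_cases h : f v = f w
      · rw [if_pos h, if_pos h.symm]
      · rw [if_neg h, if_neg (fun h' => h h'.symm)]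
    rw [Finset.sum_congr rfl h2, Finset.sum_comm]
    apply Finset.sum_congr rfl
    intro i _
    rw [← Finset.sum_filter, Finset.sum_const, nsmul_eq_mul, sq]
  rw [h1]
  have h3 : ∑ i : Fin 4, ((V.filter (fun v => f v = i)).card : ℝ) = V.card := by
    have := Finset.card_eq_sum_card_fiberwise (s := V) (t := Finset.univ) (f := f)
      (fun v _ => Finset.mem_univ _)
    rw [this]
    push_cast
    rfl
  have h4 := sq_sum_le_card_mul_sum_sq (s := (Finset.univ : Finset (Fin 4)))
    (f := fun i => ((V.filter (fun v => f v = i)).card : ℝ))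
  rw [h3, Finset.card_univ, Fintype.card_fin] at h4
  push_cast at h4
  linarith

/-- Plotkin's bound for triangles of the same type, of comparable small parts, and with the same
letters at the primes of g -/
theorem plotkin {A g : ℕ} (hA : 2 ≤ A) (hg : g ∣ A) (hc : Nat.Coprime g (A / g)) (ε : ℝ)
    (hε : 0 < ε) (hgA : (1 / 3 + ε) * Real.log A ≤ Real.log g) (V : Finset (ℕ × ℕ))
    (hV : ∀ v ∈ V, Gen A v)
    (hT : ∀ v ∈ V, ∀ w ∈ V, (2 * v.2 ≤ v.1 ↔ 2 * w.2 ≤ w.1))
    (hs : ∀ v ∈ V, ∀ w ∈ V, Real.log (small v) ≤ Real.log (small w) + ε / 4 * Real.log A)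
    (hl : ∀ v ∈ V, ∀ w ∈ V, ∀ p ∈ g.primeFactors, letter v p = letter w p) :
    (V.card : ℝ) ≤ 2 / ε := by
  have hA0 : 0 < A := by omega
  have hlA : 0 < Real.log A := Real.log_pos (by exact_mod_cast hA)
  have hgp : g.primeFactors ⊆ A.primeFactors := Nat.primeFactors_mono hg hA0.ne'
  set K : ℝ := (V.card : ℝ) with hK
  -- the total agreement
  set c : ℕ × ℕ → ℕ × ℕ → ℝ := fun v w =>
    ∑ p ∈ A.primeFactors, (if letter v p = letter w p then (1 : ℝ) else 0) * wt A p with hc'
  have hcf : ∀ v w, c v w =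
      ∑ p ∈ A.primeFactors.filter (fun p => letter v p = letter w p), wt A p := by
    intro v w
    simp only [hc']
    rw [Finset.sum_filter]
    apply Finset.sum_congr rfl
    intro p _
    split_ifs <;> simp
  -- upper bound
  have hup : ∑ v ∈ V, ∑ w ∈ V, c v w ≤
      K * Real.log A + K ^ 2 * ((1 / 2 + ε / 4) * Real.log A) := by
    have h1 : ∀ v ∈ V, ∀ w ∈ V, c v w ≤
        (if v = w then Real.log A else 0) + (1 / 2 + ε / 4) * Real.log A := by
      intro v hv w hw
      by_cases h : v = w
      · rw [if_pos h, hcf]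
        have h2 : ∑ p ∈ A.primeFactors.filter (fun p => letter v p = letter w p), wt A p ≤
            ∑ p ∈ A.primeFactors, wt A p :=
          Finset.sum_le_sum_of_subset_of_nonneg (Finset.filter_subset _ _)
            (fun p _ _ => wt_nonneg A p)
        rw [sum_wt hA0] at h2
        have : 0 ≤ (1 / 2 + ε / 4) * Real.log A := by positivity
        linarith
      · rw [if_neg h, hcf]
        have h2 := agree_le (hV v hv) (hV w hw) h
        have h3 := log_det_le (hV v hv) (hV w hw) h (hT v hv w hw) (ε / 4 * Real.log A)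
          (hs v hv w hw) (hs w hw v hv)
        linarith
    calc _ ≤ ∑ v ∈ V, ∑ w ∈ V,
          ((if v = w then Real.log A else 0) + (1 / 2 + ε / 4) * Real.log A) :=
          Finset.sum_le_sum fun v hv => Finset.sum_le_sum fun w hw => h1 v hv w hw
      _ = K * Real.log A + K ^ 2 * ((1 / 2 + ε / 4) * Real.log A) := by
          have h2 : ∀ v ∈ V, ∑ w ∈ V,
              ((if v = w then Real.log A else 0) + (1 / 2 + ε / 4) * Real.log A) =
              Real.log A + K * ((1 / 2 + ε / 4) * Real.log A) := by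
            intro v hv
            rw [Finset.sum_add_distrib, Finset.sum_ite_eq, if_pos hv, Finset.sum_const,
              nsmul_eq_mul]
          rw [Finset.sum_congr rfl h2, Finset.sum_const, nsmul_eq_mul]
          ring
  -- lower bound
  have hlow : K ^ 2 * (Real.log g + (Real.log A - Real.log g) / 4) ≤ ∑ v ∈ V, ∑ w ∈ V, c v w := by
    have h1 : ∑ v ∈ V, ∑ w ∈ V, c v w = ∑ p ∈ A.primeFactors,
        (∑ v ∈ V, ∑ w ∈ V, (if letter v p = letter w p then (1 : ℝ) else 0)) * wt A p := by
      simp only [hc']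
      have h2 : ∀ v ∈ V, ∑ w ∈ V, ∑ p ∈ A.primeFactors,
          (if letter v p = letter w p then (1 : ℝ) else 0) * wt A p =
          ∑ p ∈ A.primeFactors,
            (∑ w ∈ V, (if letter v p = letter w p then (1 : ℝ) else 0)) * wt A p := by
        intro v _
        rw [Finset.sum_comm]
        apply Finset.sum_congr rfl
        intro p _
        rw [Finset.sum_mul]
      rw [Finset.sum_congr rfl h2, Finset.sum_comm]
      apply Finset.sum_congr rfl
      intro p _
      rw [Finset.sum_mul]
    rw [h1, ← Finset.sum_sdiff hgp]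
    have h3 : ∑ p ∈ A.primeFactors \ g.primeFactors, K ^ 2 / 4 * wt A p ≤
        ∑ p ∈ A.primeFactors \ g.primeFactors,
        (∑ v ∈ V, ∑ w ∈ V, (if letter v p = letter w p then (1 : ℝ) else 0)) * wt A p := by
      apply Finset.sum_le_sum
      intro p _
      exact mul_le_mul_of_nonneg_right (pairs_ge V (fun v => letter v p)) (wt_nonneg A p)
    have h4 : ∑ p ∈ g.primeFactors, K ^ 2 * wt A p =
        ∑ p ∈ g.primeFactors,
        (∑ v ∈ V, ∑ w ∈ V, (if letter v p = letter w p then (1 : ℝ) else 0)) * wt A p := by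
      apply Finset.sum_congr rfl
      intro p hp
      congr 1
      have h5 : ∀ v ∈ V, ∑ w ∈ V, (if letter v p = letter w p then (1 : ℝ) else 0) = K := by
        intro v hv
        rw [Finset.sum_congr rfl (fun w hw => if_pos (hl v hv w hw p hp)), Finset.sum_const,
          nsmul_eq_mul, mul_one]
      rw [Finset.sum_congr rfl h5, Finset.sum_const, nsmul_eq_mul, sq]
    rw [← h4, ← Finset.mul_sum, sum_wt_unitary hA0 hg hc]
    rw [← Finset.mul_sum] at h3
    have h6 : ∑ p ∈ A.primeFactors \ g.primeFactors, wt A p = Real.log A - Real.log g := by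
      have h7 := Finset.sum_sdiff hgp (f := fun p => wt A p)
      rw [sum_wt hA0, sum_wt_unitary hA0 hg hc] at h7
      linarith
    rw [h6] at h3
    linarith
  have hK0 : 0 ≤ K := by positivity
  have h8 : K ^ 2 * ((1 / 2 + 3 * ε / 4) * Real.log A) ≤
      K ^ 2 * (Real.log g + (Real.log A - Real.log g) / 4) := by
    apply mul_le_mul_of_nonneg_left _ (by positivity)
    nlinarith
  have h9 : K ^ 2 * (ε / 2) * Real.log A ≤ K * Real.log A := by nlinarith
  have h10 : K ^ 2 * (ε / 2) ≤ K := le_of_mul_le_mul_right h9 hlA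
  rcases hK0.eq_or_lt with h | h
  · rw [← h]
    positivity
  · have h11 : K * (ε / 2) ≤ 1 := by
      have : K * (K * (ε / 2)) ≤ K * 1 := by linarith
      exact le_of_mul_le_mul_left this h
    rw [le_div_iff₀ hε]
    linarith

end Pool.Agent.H99.PT
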