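import Pool.Agent.H99.PT.Word

/-!
MP_912b3a_nt: sizes of the determinants.
-/

namespace Pool.Agent.H99.PT

/-- the small part -/
def small (v : ℕ × ℕ) : ℕ := if 2 * v.2 ≤ v.1 then v.2 else v.1 - v.2

theorem small_pos {A : ℕ} {v : ℕ × ℕ} (h : Gen A v) : 0 < small v := by
  obtain ⟨h1, h2, _⟩ := h
  unfold small
  split_ifs <;> omega

theorem small_le {A : ℕ} {v : ℕ × ℕ} (h : Gen A v) : small v ≤ v.1 := by
  obtain ⟨h1, h2, _⟩ := h
  unfold small
  split_ifs <;> omega

theorem mul_small_sq {A : ℕ} {v : ℕ × ℕ} (h : Gen A v) : (v.1 * small v) ^ 2 ≤ A := by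
  obtain ⟨h1, h2, h3, h4, h5⟩ := h
  obtain ⟨m, n⟩ := v
  simp only [small] at *
  rw [Nat.sq_sub_sq] at h5
  rw [← h5]
  obtain ⟨d, rfl⟩ : ∃ d, m = n + d := ⟨m - n, by omega⟩
  rw [Nat.add_sub_cancel_left]
  split_ifs with h6
  · have h7 : (n + d) * n ≤ (n + d + n) * d := by nlinarith
    calc ((n + d) * n) ^ 2 = ((n + d) * n) * ((n + d) * n) := by ring
      _ ≤ ((n + d) * n) * ((n + d + n) * d) := Nat.mul_le_mul_left _ h7
  · have h7 : (n + d) * d ≤ n * (n + d + n) := by nlinarith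
    calc ((n + d) * d) ^ 2 = ((n + d) * d) * ((n + d) * d) := by ring
      _ ≤ ((n + d) * d) * (n * (n + d + n)) := Nat.mul_le_mul_left _ h7
      _ = (n + d) * n * ((n + d + n) * d) := by ring

theorem small_pow_four {A : ℕ} {v : ℕ × ℕ} (h : Gen A v) : small v ^ 4 ≤ A := by
  have h1 := mul_small_sq h
  have h2 := small_le h
  calc small v ^ 4 = (small v * small v) ^ 2 := by ring
    _ ≤ (v.1 * small v) ^ 2 := Nat.pow_le_pow_left (Nat.mul_le_mul_right _ h2) 2
    _ ≤ A := h1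

theorem det_le {A : ℕ} {v w : ℕ × ℕ} (hv : Gen A v) (hw : Gen A w)
    (ht : 2 * v.2 ≤ v.1 ↔ 2 * w.2 ≤ w.1) :
    |det v w| ≤ max ((v.1 : ℤ) * small w) ((w.1 : ℤ) * small v) := by
  obtain ⟨hv1, hv2, _⟩ := hv
  obtain ⟨hw1, hw2, _⟩ := hw
  have e1 : ((v.1 - v.2 : ℕ) : ℤ) = v.1 - v.2 := by push_cast [hv2.le]; ring
  have e2 : ((w.1 - w.2 : ℕ) : ℤ) = w.1 - w.2 := by push_cast [hw2.le]; ring
  have p1 : (0 : ℤ) ≤ (v.1 : ℤ) * small w := by positivity
  have p2 : (0 : ℤ) ≤ (w.1 : ℤ) * small v := by positivity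
  have key : det v w = (v.1 : ℤ) * small w - (w.1 : ℤ) * small v ∨
      det v w = (w.1 : ℤ) * small v - (v.1 : ℤ) * small w := by
    unfold det small
    by_cases h1 : 2 * v.2 ≤ v.1
    · have h2 := ht.mp h1
      left
      rw [if_pos h1, if_pos h2]
    · have h2 : ¬ 2 * w.2 ≤ w.1 := fun h => h1 (ht.mpr h)
      right
      rw [if_neg h1, if_neg h2, e1, e2]
      ring
  rcases key with h | h
  · rw [h, abs_le]
    constructor
    · have := le_max_right ((v.1 : ℤ) * small w) ((w.1 : ℤ) * small v)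
      linarith
    · have := le_max_left ((v.1 : ℤ) * small w) ((w.1 : ℤ) * small v)
      linarith
  · rw [h, abs_le]
    constructor
    · have := le_max_left ((v.1 : ℤ) * small w) ((w.1 : ℤ) * small v)
      linarith
    · have := le_max_right ((v.1 : ℤ) * small w) ((w.1 : ℤ) * small v)
      linarith

/-- logarithmic form -/
theorem log_det_le {A : ℕ} {v w : ℕ × ℕ} (hv : Gen A v) (hw : Gen A w) (hne : v ≠ w)
    (ht : 2 * v.2 ≤ v.1 ↔ 2 * w.2 ≤ w.1) (t : ℝ)
    (h1 : Real.log (small v) ≤ Real.log (small w) + t)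
    (h2 : Real.log (small w) ≤ Real.log (small v) + t) :
    Real.log |((det v w : ℤ) : ℝ)| ≤ 1 / 2 * Real.log A + t := by
  have hA : (0 : ℝ) < A := by exact_mod_cast area_pos hv
  have hd := det_ne_zero hv hw hne
  have hd' : (0 : ℝ) < |((det v w : ℤ) : ℝ)| := by
    rw [abs_pos]
    exact_mod_cast hd
  have hle := det_le hv hw ht
  have aux : ∀ {v w : ℕ × ℕ}, Gen A v → Gen A w → Real.log (small w) ≤ Real.log (small v) + t →
      Real.log ((v.1 : ℝ) * small w) ≤ 1 / 2 * Real.log A + t := by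
    intro v w hv hw h
    have hv0 : (0 : ℝ) < v.1 := by
      have := hv.1
      have := hv.2.1
      exact_mod_cast (by omega : 0 < v.1)
    have hs : (0 : ℝ) < small v := by exact_mod_cast small_pos hv
    have hs' : (0 : ℝ) < small w := by exact_mod_cast small_pos hw
    have h3 : Real.log ((v.1 : ℝ) * small v) ≤ 1 / 2 * Real.log A := by
      have h4 : (((v.1 : ℝ) * small v)) ^ 2 ≤ A := by exact_mod_cast mul_small_sq hv
      have h5 := Real.log_le_log (by positivity) h4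
      rw [Real.log_pow] at h5
      push_cast at h5
      linarith
    rw [Real.log_mul hv0.ne' hs.ne'] at h3
    rw [Real.log_mul hv0.ne' hs'.ne']
    linarith
  have hle' : |((det v w : ℤ) : ℝ)| ≤ max ((v.1 : ℝ) * small w) ((w.1 : ℝ) * small v) := by
    have : ((|det v w| : ℤ) : ℝ) ≤ ((max ((v.1 : ℤ) * small w) ((w.1 : ℤ) * small v) : ℤ) : ℝ) := by
      exact_mod_cast hle
    rw [Int.cast_abs] at this
    push_cast at this
    exact this
  rcases le_total ((v.1 : ℝ) * small w) ((w.1 : ℝ) * small v) with h | h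
  · rw [max_eq_right h] at hle'
    exact (Real.log_le_log hd' hle').trans (aux hw hv h1)
  · rw [max_eq_left h] at hle'
    exact (Real.log_le_log hd' hle').trans (aux hv hw h2)

end Pool.Agent.H99.PT
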