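import Mathlib

/-!
MP_912b3a_nt: primitive Pythagorean triangles of a given area and codes.  Words and determinants.
-/

namespace Pool.Agent.H99.PT

/-- generator pairs of area A -/
def Gen (A : ℕ) (v : ℕ × ℕ) : Prop :=
  0 < v.2 ∧ v.2 < v.1 ∧ Nat.Coprime v.1 v.2 ∧ ¬ v.1 ≡ v.2 [MOD 2] ∧
    v.1 * v.2 * (v.1 ^ 2 - v.2 ^ 2) = A

/-- the four parts -/
def part (v : ℕ × ℕ) : Fin 4 → ℕ := ![v.1, v.2, v.1 - v.2, v.1 + v.2]

theorem prod_parts {A : ℕ} {v : ℕ × ℕ} (h : Gen A v) :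
    part v 0 * part v 1 * part v 2 * part v 3 = A := by
  obtain ⟨h1, h2, h3, h4, h5⟩ := h
  rw [← h5]
  have h6 : v.1 ^ 2 - v.2 ^ 2 = (v.1 + v.2) * (v.1 - v.2) := Nat.sq_sub_sq _ _
  rw [h6]
  simp [part]
  ring

theorem part_pos {A : ℕ} {v : ℕ × ℕ} (h : Gen A v) (i : Fin 4) : 0 < part v i := by
  obtain ⟨h1, h2, _⟩ := h
  fin_cases i <;> simp [part] <;> omega

theorem area_pos {A : ℕ} {v : ℕ × ℕ} (h : Gen A v) : 0 < A := by
  rw [← prod_parts h]
  have := part_pos h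
  have h0 := this 0
  have h1 := this 1
  have h2 := this 2
  have h3 := this 3
  positivity

/-- a prime dividing two different parts does not exist -/
theorem part_unique {A : ℕ} {v : ℕ × ℕ} (h : Gen A v) {p : ℕ} (hp : p.Prime) {i j : Fin 4}
    (hi : p ∣ part v i) (hj : p ∣ part v j) : i = j := by
  obtain ⟨h1, h2, h3, h4, h5⟩ := h
  obtain ⟨m, n⟩ := v
  simp only at h1 h2 h3 h4 h5
  have hmn : p ∣ m → p ∣ n → False := fun a b => by
    have := Nat.dvd_gcd a b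
    rw [h3] at this
    exact hp.one_lt.ne' (Nat.dvd_one.mp this)
  -- the parity: m + n is odd
  have hodd : (m + n) % 2 = 1 := by
    unfold Nat.ModEq at h4
    omega
  have hp2 : p ∣ m + n → p ≠ 2 := by
    rintro h rfl
    omega
  obtain ⟨d, rfl⟩ : ∃ d, m = n + d := ⟨m - n, by omega⟩
  have e1 : n + d - n = d := by omega
  -- divisibility of twice
  have key : p ∣ d → p ∣ (n + d) + n → False := by
    intro a b
    have c : p ∣ 2 * n := by
      have : (n + d) + n = 2 * n + d := by ring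
      rw [this] at b
      exact (Nat.dvd_add_left a).mp b
    rcases (Nat.Prime.dvd_mul hp).mp c with c | c
    · have := (Nat.prime_dvd_prime_iff_eq hp Nat.prime_two).mp c
      exact hp2 b this
    · exact hmn ((Nat.dvd_add_right c).mpr a) c
  have k02 : p ∣ n + d → p ∣ d → False := fun a b => hmn a ((Nat.dvd_add_left b).mp a)
  have k03 : p ∣ n + d → p ∣ (n + d) + n → False := fun a b => hmn a ((Nat.dvd_add_right a).mp b)
  have k12 : p ∣ n → p ∣ d → False := fun a b => hmn ((Nat.dvd_add_right a).mpr b) a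
  have k13 : p ∣ n → p ∣ (n + d) + n → False := fun a b => hmn ((Nat.dvd_add_left a).mp b) a
  fin_cases i <;> fin_cases j <;> simp [part, e1] at hi hj ⊢
  · exact hmn hi hj
  · exact k02 hi hj
  · exact k03 hi hj
  · exact hmn hj hi
  · exact k12 hi hj
  · exact k13 hi hj
  · exact k02 hj hi
  · exact k12 hj hi
  · exact key hi hj
  · exact k03 hj hi
  · exact k13 hj hi
  · exact key hj hi

theorem exists_part {A : ℕ} {v : ℕ × ℕ} (h : Gen A v) {p : ℕ} (hp : p.Prime) (hA : p ∣ A) :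
    ∃ i, p ∣ part v i := by
  rw [← prod_parts h] at hA
  rcases (Nat.Prime.dvd_mul hp).mp hA with h1 | h1
  · rcases (Nat.Prime.dvd_mul hp).mp h1 with h2 | h2
    · rcases (Nat.Prime.dvd_mul hp).mp h2 with h3 | h3
      · exact ⟨0, h3⟩
      · exact ⟨1, h3⟩
    · exact ⟨2, h2⟩
  · exact ⟨3, h1⟩

open Classical in
/-- the letter of the prime p in the word of v -/
noncomputable def letter (v : ℕ × ℕ) (p : ℕ) : Fin 4 :=
  if h : ∃ i, p ∣ part v i then h.choose else 0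

theorem letter_dvd {A : ℕ} {v : ℕ × ℕ} (h : Gen A v) {p : ℕ} (hp : p.Prime) (hA : p ∣ A) :
    p ∣ part v (letter v p) := by
  have h1 := exists_part h hp hA
  rw [letter, dif_pos h1]
  exact h1.choose_spec

/-- the whole prime power of A divides that part -/
theorem letter_pow {A : ℕ} {v : ℕ × ℕ} (h : Gen A v) {p : ℕ} (hp : p.Prime) (hA : p ∣ A) :
    p ^ A.factorization p ∣ part v (letter v p) := by
  have h1 := letter_dvd h hp hA
  have hA0 := (area_pos h).ne'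
  have h2 : p ^ A.factorization p ∣ A := Nat.ordProj_dvd A p
  have h3 : ∀ j, j ≠ letter v p → Nat.Coprime (p ^ A.factorization p) (part v j) := by
    intro j hj
    apply Nat.Coprime.pow_left
    rw [hp.coprime_iff_not_dvd]
    intro h4
    exact hj (part_unique h hp h4 h1)
  have h5 := prod_parts h
  rw [← h5] at h2
  set i := letter v p with hi
  have hi4 : i = 0 ∨ i = 1 ∨ i = 2 ∨ i = 3 :=
    (by decide : ∀ i : Fin 4, i = 0 ∨ i = 1 ∨ i = 2 ∨ i = 3) i
  rw [h5] at h2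
  rcases hi4 with h6 | h6 | h6 | h6
  · rw [h6] at h3 ⊢
    rw [← h5] at h2
    exact (h3 1 (by decide)).dvd_of_dvd_mul_right ((h3 2 (by decide)).dvd_of_dvd_mul_right
      ((h3 3 (by decide)).dvd_of_dvd_mul_right (by rw [h5] at h2 ⊢; exact h2)))
  · rw [h6] at h3 ⊢
    have h7 := (h3 2 (by decide)).dvd_of_dvd_mul_right ((h3 3 (by decide)).dvd_of_dvd_mul_right
      (by rw [h5]; exact h2))
    exact (h3 0 (by decide)).dvd_of_dvd_mul_left h7
  · rw [h6] at h3 ⊢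
    have h7 := (h3 3 (by decide)).dvd_of_dvd_mul_right (by rw [h5]; exact h2)
    have h8 := Nat.Coprime.mul_right (h3 0 (by decide)) (h3 1 (by decide))
    exact h8.dvd_of_dvd_mul_left h7
  · rw [h6] at h3 ⊢
    have h8 := Nat.Coprime.mul_right (Nat.Coprime.mul_right (h3 0 (by decide)) (h3 1 (by decide)))
      (h3 2 (by decide))
    exact h8.dvd_of_dvd_mul_left (by rw [h5]; exact h2)

/-- the determinant -/
def det (v w : ℕ × ℕ) : ℤ := (v.1 : ℤ) * w.2 - w.1 * v.2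

theorem dvd_det {A : ℕ} {v w : ℕ × ℕ} (hv : Gen A v) (hw : Gen A w) {q : ℕ} {i : Fin 4}
    (h1 : q ∣ part v i) (h2 : q ∣ part w i) : (q : ℤ) ∣ det v w := by
  obtain ⟨_, hv2, _⟩ := hv
  obtain ⟨_, hw2, _⟩ := hw
  have e1 : ((v.1 - v.2 : ℕ) : ℤ) = v.1 - v.2 := by push_cast [hv2.le]; ring
  have e2 : ((w.1 - w.2 : ℕ) : ℤ) = w.1 - w.2 := by push_cast [hw2.le]; ring
  unfold det
  fin_cases i
  · have a : (q : ℤ) ∣ v.1 := by exact_mod_cast h1
    have b : (q : ℤ) ∣ w.1 := by exact_mod_cast h2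
    exact dvd_sub (Dvd.dvd.mul_right a _) (Dvd.dvd.mul_right b _)
  · have a : (q : ℤ) ∣ v.2 := by exact_mod_cast h1
    have b : (q : ℤ) ∣ w.2 := by exact_mod_cast h2
    exact dvd_sub (Dvd.dvd.mul_left b _) (Dvd.dvd.mul_left a _)
  · have a : (q : ℤ) ∣ (v.1 : ℤ) - v.2 := by rw [← e1]; exact_mod_cast h1
    have b : (q : ℤ) ∣ (w.1 : ℤ) - w.2 := by rw [← e2]; exact_mod_cast h2
    have c : (v.1 : ℤ) * w.2 - w.1 * v.2 = ((v.1 : ℤ) - v.2) * w.2 - ((w.1 : ℤ) - w.2) * v.2 := by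
      ring
    rw [c]
    exact dvd_sub (Dvd.dvd.mul_right a _) (Dvd.dvd.mul_right b _)
  · have a : (q : ℤ) ∣ (v.1 : ℤ) + v.2 := by
      have : ((v.1 + v.2 : ℕ) : ℤ) = v.1 + v.2 := by push_cast; ring
      rw [← this]; exact_mod_cast h1
    have b : (q : ℤ) ∣ (w.1 : ℤ) + w.2 := by
      have : ((w.1 + w.2 : ℕ) : ℤ) = w.1 + w.2 := by push_cast; ring
      rw [← this]; exact_mod_cast h2
    have c : (v.1 : ℤ) * w.2 - w.1 * v.2 = ((v.1 : ℤ) + v.2) * w.2 - ((w.1 : ℤ) + w.2) * v.2 := by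
      ring
    rw [c]
    exact dvd_sub (Dvd.dvd.mul_right a _) (Dvd.dvd.mul_right b _)

theorem det_ne_zero {A : ℕ} {v w : ℕ × ℕ} (hv : Gen A v) (hw : Gen A w) (hne : v ≠ w) :
    det v w ≠ 0 := by
  intro h
  obtain ⟨hv1, hv2, hv3, _⟩ := hv
  obtain ⟨hw1, hw2, hw3, _⟩ := hw
  unfold det at h
  have h1 : v.1 * w.2 = w.1 * v.2 := by
    have : (v.1 : ℤ) * w.2 = w.1 * v.2 := by linarith
    exact_mod_cast this
  have h2 : v.1 ∣ w.1 := hv3.dvd_of_dvd_mul_right (Dvd.intro _ h1)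
  have h3 : w.1 ∣ v.1 := hw3.dvd_of_dvd_mul_right (Dvd.intro _ h1.symm)
  have h4 : v.1 = w.1 := Nat.dvd_antisymm h2 h3
  have h5 : v.2 = w.2 := by
    rw [h4] at h1
    exact (Nat.eq_of_mul_eq_mul_left (by omega) h1).symm
  exact hne (Prod.ext h4 h5)

end Pool.Agent.H99.PT
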